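import Pool.Agent.H92.MR.Tor

set_option autoImplicit false

/-!
# Minors of matrices with three rows
-/

open CategoryTheory AlgebraicGeometry MvPolynomial Pool.Agent.Y116.UV Pool.Agent.Q282.UK
  Pool.Agent.Q282.UZ

namespace Pool.Agent.W5h77.MR

/-- The columns of the matrix `(I | M)`, where `M` is a matrix with three rows and the columns
`i ∈ γ`. -/
def cols {C γ : Type} [CommRing C] (m : Fin 3 × γ → C) : Fin 3 ⊕ γ → Fin 3 → C
  | Sum.inl k => Pi.single k 1
  | Sum.inr i => fun k => m (k, i)

/-- The maximal minors of the matrix `(I | M)`; these are, up to sign, all minors of `M`. -/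
def minor {C γ : Type} [CommRing C] (m : Fin 3 × γ → C)
    (t : (Fin 3 ⊕ γ) × (Fin 3 ⊕ γ) × (Fin 3 ⊕ γ)) : C :=
  Matrix.det (Matrix.of ![cols m t.1, cols m t.2.1, cols m t.2.2])

lemma minor_map {C D γ : Type} [CommRing C] [CommRing D] (f : C →+* D) (m : Fin 3 × γ → C)
    (t : (Fin 3 ⊕ γ) × (Fin 3 ⊕ γ) × (Fin 3 ⊕ γ)) : f (minor m t) = minor (fun v => f (m v)) t := by
  have h : ∀ (p : Fin 3 ⊕ γ) (k : Fin 3), f (cols m p k) = cols (fun v => f (m v)) p k := by
    rintro (l | i) k
    · simp only [cols, Pi.single_apply]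
      split_ifs
      · exact map_one f
      · exact map_zero f
    · rfl
  simp only [minor, Matrix.det_fin_three, Matrix.of_apply, Matrix.cons_val_zero, Matrix.cons_val_one,
    Matrix.cons_val, map_add, map_sub, map_mul, h]

/-- The generic minors. -/
noncomputable def gmin (R γ : Type) [CommRing R] (t : (Fin 3 ⊕ γ) × (Fin 3 ⊕ γ) × (Fin 3 ⊕ γ)) :
    MvPolynomial (Fin 3 × γ) R :=
  minor X t

lemma cancel_unit {C : Type} [CommRing C] {a : C} (h : IsUnit a) (b : C) :
    b = a * (↑h.unit⁻¹ * b) := by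
  rw [← mul_assoc, h.mul_val_inv, one_mul]

section conf

variable {α β γ : Type} (e : γ ≃ α ⊕ β)

/-- from the vectors to the columns -/
def tau (p : Vec α β) : Fin 3 ⊕ γ := Sum.map id e.symm p

/-- from the triples of vectors to the triples of columns -/
def tau3 (t : Vec α β × Vec α β × Vec α β) : (Fin 3 ⊕ γ) × (Fin 3 ⊕ γ) × (Fin 3 ⊕ γ) :=
  (tau e t.1, tau e t.2.1, tau e t.2.2)

/-- the scaling factors -/
def fac {C : Type} [CommRing C] (u : α ⊕ β → C) (p : Vec α β) : C := Sum.elim (fun _ => 1) u p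

variable {e}

lemma cols_tau {C : Type} [CommRing C] {c : Var α β → C} {u : α ⊕ β → C} {m : Fin 3 × γ → C}
    (h : ∀ k i, m (k, e.symm i) = u i * vecs c (Sum.inr i) k) (p : Vec α β) (k : Fin 3) :
    cols m (tau e p) k = fac u p * vecs c p k := by
  rcases p with l | i
  · change Pi.single (M := fun _ => C) l (1 : C) k = 1 * Pi.single (M := fun _ => C) l (1 : C) k
    rw [one_mul]
  · exact h k i

lemma minor_tau {C : Type} [CommRing C] {c : Var α β → C} {u : α ⊕ β → C} {m : Fin 3 × γ → C}
    (h : ∀ k i, m (k, e.symm i) = u i * vecs c (Sum.inr i) k)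
    (t : Vec α β × Vec α β × Vec α β) :
    minor m (tau3 e t) = fac u t.1 * fac u t.2.1 * fac u t.2.2 * det3 c t := by
  simp only [minor, det3, tau3, Matrix.det_fin_three, Matrix.of_apply, Matrix.cons_val_zero,
    Matrix.cons_val_one, Matrix.cons_val, cols_tau h]
  ring

lemma fac_unit {C : Type} [CommRing C] {u : α ⊕ β → C} (h : ∀ i, IsUnit (u i)) (p : Vec α β) :
    IsUnit (fac u p) := by
  rcases p with l | i
  · exact isUnit_one
  · exact h i

variable (e) [Fintype α] [Fintype β] [DecidableEq γ]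

/-- the vanishing minors -/
noncomputable def vanish (K : Finset (Vec α β × Vec α β × Vec α β)) :
    Finset ((Fin 3 ⊕ γ) × (Fin 3 ⊕ γ) × (Fin 3 ⊕ γ)) :=
  K.image (tau3 e) ∪ Finset.univ.image fun j : β =>
    (Sum.inr (e.symm (Sum.inr j)), Sum.inl 1, Sum.inl 2)

/-- the invertible minors -/
noncomputable def invert : Finset ((Fin 3 ⊕ γ) × (Fin 3 ⊕ γ) × (Fin 3 ⊕ γ)) :=
  (Finset.univ.image fun i : α => (Sum.inr (e.symm (Sum.inl i)), Sum.inl 1, Sum.inl 2)) ∪
    Finset.univ.image fun j : β => (Sum.inl 0, Sum.inr (e.symm (Sum.inr j)), Sum.inl 2)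

omit [Fintype α] [Fintype β] [DecidableEq γ] in
lemma minor_first {C : Type} [CommRing C] (m : Fin 3 × γ → C) (i : γ) :
    minor m (Sum.inr i, Sum.inl 1, Sum.inl 2) = m (0, i) := by
  simp [minor, Matrix.det_fin_three, cols]

omit [Fintype α] [Fintype β] [DecidableEq γ] in
lemma minor_second {C : Type} [CommRing C] (m : Fin 3 × γ → C) (i : γ) :
    minor m (Sum.inl 0, Sum.inr i, Sum.inl 2) = m (1, i) := by
  simp [minor, Matrix.det_fin_three, cols]

variable {R : Type} [CommRing R]

/-- The product of a configuration with a torus is a locally closed subscheme of the space of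
matrices. -/
theorem rep_mat {K : Finset (Vec α β × Vec α β × Vec α β)} {B B' : Type} [CommRing B] [CommRing B']
    [Algebra R B] [Algebra R B'] [Algebra (MvPolynomial (Var α β) R) B]
    [IsScalarTower R (MvPolynomial (Var α β) R) B] (hB : Rep (gen R α β) ↑K ∅ B)
    {j : B →+* B'} {u : α ⊕ β → B'} (hT : TorRep j u)
    (hR : ∀ r, j (algebraMap R B r) = algebraMap R B' r) :
    ∃ (alg : Algebra (MvPolynomial (Fin 3 × γ) R) B')
      (_ : IsScalarTower R (MvPolynomial (Fin 3 × γ) R) B'),
      Rep (gmin R γ) ↑(vanish e K) ↑(invert e) B' := by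
  set ψ := algebraMap (MvPolynomial (Var α β) R) B with hψ
  have hψC : ∀ r, ψ (MvPolynomial.C r) = algebraMap R B r := fun r => by
    rw [IsScalarTower.algebraMap_apply R (MvPolynomial (Var α β) R) B]
    rfl
  let c0 : Var α β → B := fun v => ψ (X v)
  let c1 : Var α β → B' := fun v => j (c0 v)
  let m' : Fin 3 × γ → B' := fun v => u (e v.2) * vecs c1 (Sum.inr (e v.2)) v.1
  have hm' : ∀ k i, m' (k, e.symm i) = u i * vecs c1 (Sum.inr i) k := by
    intro k i
    change u (e (e.symm i)) * vecs c1 (Sum.inr (e (e.symm i))) k = _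
    rw [e.apply_symm_apply]
  let φ : MvPolynomial (Fin 3 × γ) R →ₐ[R] B' := aeval m'
  letI alg : Algebra (MvPolynomial (Fin 3 × γ) R) B' := φ.toRingHom.toAlgebra
  have hφ : algebraMap (MvPolynomial (Fin 3 × γ) R) B' = φ.toRingHom := rfl
  have hX : ∀ v, φ.toRingHom (X v) = m' v := fun v => aeval_X _ v
  have hCφ : ∀ r, φ.toRingHom (MvPolynomial.C r) = algebraMap R B' r := fun r => φ.commutes r
  have hmin : ∀ t, φ.toRingHom (gmin R γ t) = minor m' t := by
    intro t
    rw [gmin, minor_map]
    simp only [hX]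
  have hdet : ∀ t, det3 c1 t = j (ψ (gen R α β t)) := by
    intro t
    rw [gen, det3_map, det3_map]
  refine ⟨alg, IsScalarTower.of_algebraMap_eq fun r => (φ.commutes r).symm, ?_, ?_, ?_, ?_⟩
  · intro t ht
    rw [hφ, hmin]
    rw [Finset.mem_coe, vanish, Finset.mem_union, Finset.mem_image, Finset.mem_image] at ht
    rcases ht with ⟨t0, ht0, rfl⟩ | ⟨j0, _, rfl⟩
    · rw [minor_tau hm', hdet, hB.zero t0 ht0, map_zero, mul_zero]
    · rw [minor_first, hm']
      simp [vecs]
  · intro t ht
    rw [hφ, hmin]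
    rw [Finset.mem_coe, invert, Finset.mem_union, Finset.mem_image, Finset.mem_image] at ht
    rcases ht with ⟨i, _, rfl⟩ | ⟨j0, _, rfl⟩
    · rw [minor_first, hm']
      simpa [vecs] using hT.unit (Sum.inl i)
    · rw [minor_second, hm']
      simpa [vecs] using hT.unit (Sum.inr j0)
  · intro C _ f g hfg
    have h0 : ∀ k i, f (u i) * f (vecs c1 (Sum.inr i) k) = g (u i) * g (vecs c1 (Sum.inr i) k) := by
      intro k i
      have h1 := RingHom.congr_fun hfg (X (k, e.symm i))
      rw [hφ, RingHom.comp_apply, RingHom.comp_apply, hX, hm', map_mul, map_mul] at h1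
      exact h1
    have hu : ∀ i, f (u i) = g (u i) := by
      rintro (i | i)
      · have h1 := h0 0 (Sum.inl i)
        simpa [vecs] using h1
      · have h1 := h0 1 (Sum.inr i)
        simpa [vecs] using h1
    have hv : ∀ k i, f (vecs c1 (Sum.inr i) k) = g (vecs c1 (Sum.inr i) k) := by
      intro k i
      have h1 := h0 k i
      rw [hu i] at h1
      exact ((hT.unit i).map g).mul_left_cancel h1
    refine hT.ext C f g (hB.ext C _ _ ?_) hu
    apply MvPolynomial.ringHom_ext
    · intro r
      have h1 := RingHom.congr_fun hfg (MvPolynomial.C r)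
      rw [hφ, RingHom.comp_apply, RingHom.comp_apply, hCφ] at h1
      rw [RingHom.comp_apply, RingHom.comp_apply, RingHom.comp_apply, RingHom.comp_apply, ← hψ, hψC,
        hR]
      exact h1
    · rintro ((i | i) | i)
      · exact hv 1 (Sum.inl i)
      · exact hv 2 (Sum.inl i)
      · exact hv 2 (Sum.inr i)
  · intro C _ f hE hH
    let m : Fin 3 × γ → C := fun v => f (X v)
    have hf : ∀ t, f (gmin R γ t) = minor m t := fun t => by rw [gmin, minor_map]
    have hu1 : ∀ i : α, IsUnit (m (0, e.symm (Sum.inl i))) := by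
      intro i
      have h1 := hH (Sum.inr (e.symm (Sum.inl i)), Sum.inl 1, Sum.inl 2) (by
        rw [Finset.mem_coe, invert]
        exact Finset.mem_union_left _ (Finset.mem_image_of_mem _ (Finset.mem_univ i)))
      rw [hf, minor_first] at h1
      exact h1
    have hu2 : ∀ i : β, IsUnit (m (1, e.symm (Sum.inr i))) := by
      intro i
      have h1 := hH (Sum.inl 0, Sum.inr (e.symm (Sum.inr i)), Sum.inl 2) (by
        rw [Finset.mem_coe, invert]
        exact Finset.mem_union_right _ (Finset.mem_image_of_mem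
          (fun j : β => ((Sum.inl 0, Sum.inr (e.symm (Sum.inr j)), Sum.inl 2) :
            (Fin 3 ⊕ γ) × (Fin 3 ⊕ γ) × (Fin 3 ⊕ γ))) (Finset.mem_univ i)))
      rw [hf, minor_second] at h1
      exact h1
    have hz : ∀ i : β, m (0, e.symm (Sum.inr i)) = 0 := by
      intro i
      have h1 := hE (Sum.inr (e.symm (Sum.inr i)), Sum.inl 1, Sum.inl 2) (by
        rw [Finset.mem_coe, vanish]
        exact Finset.mem_union_right _ (Finset.mem_image_of_mem
          (fun j : β => ((Sum.inr (e.symm (Sum.inr j)), Sum.inl 1, Sum.inl 2) :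
            (Fin 3 ⊕ γ) × (Fin 3 ⊕ γ) × (Fin 3 ⊕ γ))) (Finset.mem_univ i)))
      rw [hf, minor_first] at h1
      exact h1
    let v : α ⊕ β → C := Sum.elim (fun i => m (0, e.symm (Sum.inl i)))
      fun i => m (1, e.symm (Sum.inr i))
    have hv : ∀ i, IsUnit (v i) := by
      rintro (i | i)
      · exact hu1 i
      · exact hu2 i
    let c' : Var α β → C := Sum.elim (Sum.elim
      (fun i => ↑(hu1 i).unit⁻¹ * m (1, e.symm (Sum.inl i)))
      fun i => ↑(hu1 i).unit⁻¹ * m (2, e.symm (Sum.inl i)))
      fun i => ↑(hu2 i).unit⁻¹ * m (2, e.symm (Sum.inr i))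
    have hm : ∀ k i, m (k, e.symm i) = v i * vecs c' (Sum.inr i) k := by
      intro k i
      rcases i with i | i
      · fin_cases k
        · exact (mul_one _).symm
        · exact cancel_unit (hu1 i) _
        · exact cancel_unit (hu1 i) _
      · fin_cases k
        · exact (hz i).trans (mul_zero _).symm
        · exact (mul_one _).symm
        · exact cancel_unit (hu2 i) _
    have hK : ∀ t ∈ K, det3 c' t = 0 := by
      intro t ht
      have h1 := hE (tau3 e t) (by
        rw [Finset.mem_coe, vanish]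
        exact Finset.mem_union_left _ (Finset.mem_image_of_mem _ ht))
      rw [hf, minor_tau hm] at h1
      have h2 : IsUnit (fac v t.1 * fac v t.2.1 * fac v t.2.2) :=
        ((fac_unit hv _).mul (fac_unit hv _)).mul (fac_unit hv _)
      exact (h2.mul_right_eq_zero).1 h1
    let fN : MvPolynomial (Var α β) R →+* C := eval₂Hom (f.comp MvPolynomial.C) c'
    have hfX : ∀ w, fN (X w) = c' w := fun w => eval₂Hom_X' _ _ w
    have hfC : ∀ r, fN (MvPolynomial.C r) = f (MvPolynomial.C r) := fun r => eval₂Hom_C _ _ r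
    obtain ⟨g1, hg1⟩ := hB.lift C fN (fun t ht => by
      rw [gen, det3_map]
      simp only [hfX]
      exact hK t ht) (fun t ht => ht.elim)
    obtain ⟨g, hg, hgu⟩ := hT.lift C g1 v hv
    have hg1' : ∀ p, g1 (ψ p) = fN p := fun p => RingHom.congr_fun hg1 p
    have hg' : ∀ p, g (j p) = g1 p := fun p => RingHom.congr_fun hg p
    have hvec : ∀ (p : Vec α β) (k : Fin 3), g (vecs c1 p k) = vecs c' p k := by
      rintro (l | i | i) k
      · simp only [vecs, Pi.single_apply]
        split_ifs
        · exact map_one g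
        · exact map_zero g
      · fin_cases k
        · exact map_one g
        · exact (hg' _).trans ((hg1' _).trans (hfX _))
        · exact (hg' _).trans ((hg1' _).trans (hfX _))
      · fin_cases k
        · exact map_zero g
        · exact map_one g
        · exact (hg' _).trans ((hg1' _).trans (hfX _))
    refine ⟨g, ?_⟩
    apply MvPolynomial.ringHom_ext
    · intro r
      rw [RingHom.comp_apply, hφ, hCφ, ← hR, ← hψC, hg', hg1', hfC]
    · rintro ⟨k, i⟩
      rw [RingHom.comp_apply, hφ, hX]
      change g (u (e i) * vecs c1 (Sum.inr (e i)) k) = m (k, i)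
      have h1 := hm k (e i)
      rw [e.symm_apply_apply] at h1
      rw [map_mul, hgu, hvec, h1]

end conf

end Pool.Agent.W5h77.MR
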