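import Pool.Agent.H92.MR.Conf

set_option autoImplicit false

/-!
# Universality of normalized configurations
-/

open CategoryTheory AlgebraicGeometry MvPolynomial Pool.Agent.Y116.UV Pool.Agent.Q282.UK
  Pool.Agent.Q282.UZ

namespace Pool.Agent.W5h77.MR

variable {R : Type} [CommRing R] {sep : Prop} {P : Sch R → Prop}

/-- the closed-open decompositions: `P` passes from `X` and the open complement to the closed part -/
def ClosedRule (sep : Prop) (P : Sch R → Prop) : Prop :=
  ∀ {Z X U : Sch R} (i : Z ⟶ X) (j : U ⟶ X), FT sep X → IsTriple i j → P X → P U → P Z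

theorem norm_of_good (hR : ShortPresents R) (hP : Clo sep P)
    (h : ∀ (a b c : ℕ) (K : Finset (Vec (Al a c) (Fin b) × Vec (Al a c) (Fin b) ×
      Vec (Al a c) (Fin b))), Good R (gen R (Al a c) (Fin b)) P ↑K ∅) :
    ∀ X : Sch R, FT sep X → P X := by
  rw [three_iff hR hP]
  intro a b c E hE
  obtain ⟨alg, tow, K, hK⟩ := rep_system R E hE
  exact @h a b c K _ _ alg _ tow hK

theorem norm_open (hR : ShortPresents R) (hP : Clo sep P) (hc : ClosedRule sep P)
    (h : ∀ (α β : Type) [Fintype α] [Fintype β] (S : Finset (Vec α β × Vec α β × Vec α β)),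
      P (aff R (Localization.Away (∏ t ∈ S, gen R α β t)))) :
    ∀ X : Sch R, FT sep X → P X := by
  refine norm_of_good hR hP fun a b c K => ?_
  have h1 := good_of_open (δ := gen R (Al a c) (Fin b)) hP hc (fun H => h _ _ H) K ∅
  rw [Finset.coe_empty] at h1
  exact h1

end Pool.Agent.W5h77.MR
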