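import Pool.Agent.H92.MR.Norm

set_option autoImplicit false

/-!
# Products with tori
-/

open CategoryTheory AlgebraicGeometry Pool.Agent.Y116.UV Pool.Agent.Q282.UK

namespace Pool.Agent.W5h77.MR

/-- `B'` is the ring of Laurent polynomials over `B` in the variables `u i` (universal property). -/
structure TorRep {B B' γ : Type} [CommRing B] [CommRing B'] (j : B →+* B') (u : γ → B') : Prop where
  unit : ∀ i, IsUnit (u i)
  ext : ∀ (C : Type) [CommRing C] (f g : B' →+* C), f.comp j = g.comp j →
    (∀ i, f (u i) = g (u i)) → f = g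
  lift : ∀ (C : Type) [CommRing C] (f : B →+* C) (v : γ → C), (∀ i, IsUnit (v i)) →
    ∃ g : B' →+* C, g.comp j = f ∧ ∀ i, g (u i) = v i

lemma laurent_ext {B C : Type} [CommRing B] [CommRing C] (f g : LaurentPolynomial B →+* C)
    (h : f.comp LaurentPolynomial.C = g.comp LaurentPolynomial.C)
    (hT : f (LaurentPolynomial.T 1) = g (LaurentPolynomial.T 1)) : f = g := by
  apply IsLocalization.ringHom_ext (Submonoid.powers (Polynomial.X : Polynomial B))
  apply Polynomial.ringHom_ext
  · intro r
    have h1 := RingHom.congr_fun h r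
    simpa [LaurentPolynomial.algebraMap_eq_toLaurent] using h1
  · simpa [LaurentPolynomial.algebraMap_eq_toLaurent] using hT

variable {R : Type} [CommRing R] {sep : Prop} {P : Sch R → Prop}

theorem exists_tor_fin (hP : Clo sep P) (B : Type) [CommRing B] [Algebra R B]
    [Algebra.FiniteType R B] (n : ℕ) :
    ∃ (B' : Type) (_ : CommRing B') (_ : Algebra R B') (_ : Algebra.FiniteType R B')
      (j : B →+* B') (u : Fin n → B'), TorRep j u ∧
        (∀ r, j (algebraMap R B r) = algebraMap R B' r) ∧ (P (aff R B') → P (aff R B)) := by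
  induction n with
  | zero =>
    refine ⟨B, inferInstance, inferInstance, inferInstance, RingHom.id B, Fin.elim0, ?_,
      fun r => rfl, fun h => h⟩
    refine ⟨fun i => i.elim0, fun C _ f g h _ => ?_, fun C _ f v _ => ⟨f, ?_, fun i => i.elim0⟩⟩
    · rw [RingHom.comp_id, RingHom.comp_id] at h
      exact h
    · rw [RingHom.comp_id]
  | succ n ih =>
    obtain ⟨B', i1, i2, i3, j, u, hT, hR, hd⟩ := ih
    refine ⟨LaurentPolynomial B', inferInstance, inferInstance, ft_laurent B',
      (LaurentPolynomial.C).comp j,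
      Fin.cons (LaurentPolynomial.T 1) fun i => LaurentPolynomial.C (u i), ?_, ?_, ?_⟩
    · refine ⟨?_, ?_, ?_⟩
      · refine Fin.cases ?_ fun i => ?_
        · rw [Fin.cons_zero]
          exact LaurentPolynomial.isUnit_T 1
        · rw [Fin.cons_succ]
          exact (hT.unit i).map _
      · intro C _ f g h1 h2
        have h3 := h2 0
        rw [Fin.cons_zero] at h3
        refine laurent_ext f g (hT.ext C _ _ ?_ fun i => ?_) h3
        · rw [RingHom.comp_assoc, RingHom.comp_assoc]
          exact h1
        · have h4 := h2 i.succ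
          rw [Fin.cons_succ] at h4
          exact h4
      · intro C _ f v hv
        obtain ⟨g, hg, hgu⟩ := hT.lift C f (fun i => v i.succ) fun i => hv i.succ
        refine ⟨LaurentPolynomial.eval₂ g (hv 0).unit, ?_, ?_⟩
        · ext x
          rw [RingHom.comp_apply, RingHom.comp_apply, LaurentPolynomial.eval₂_C, ← hg]
          rfl
        · refine Fin.cases ?_ fun i => ?_
          · rw [Fin.cons_zero, LaurentPolynomial.eval₂_T, zpow_one]
            exact IsUnit.unit_spec _
          · rw [Fin.cons_succ, LaurentPolynomial.eval₂_C, hgu]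
    · intro r
      rw [RingHom.comp_apply, hR, LaurentPolynomial.algebraMap_apply]
    · intro h
      exact hd (hP.torus B' h)

theorem exists_tor (hP : Clo sep P) (B : Type) [CommRing B] [Algebra R B]
    [Algebra.FiniteType R B] (γ : Type) [Finite γ] :
    ∃ (B' : Type) (_ : CommRing B') (_ : Algebra R B') (_ : Algebra.FiniteType R B')
      (j : B →+* B') (u : γ → B'), TorRep j u ∧
        (∀ r, j (algebraMap R B r) = algebraMap R B' r) ∧ (P (aff R B') → P (aff R B)) := by
  obtain ⟨n, ⟨e⟩⟩ := Finite.exists_equiv_fin γ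
  obtain ⟨B', i1, i2, i3, j, u, hT, hR, hd⟩ := exists_tor_fin hP B n
  refine ⟨B', i1, i2, i3, j, u ∘ e, ⟨fun i => hT.unit _, ?_, ?_⟩, hR, hd⟩
  · intro C _ f g h1 h2
    refine hT.ext C f g h1 fun i => ?_
    have h3 := h2 (e.symm i)
    simpa using h3
  · intro C _ f v hv
    obtain ⟨g, hg, hgu⟩ := hT.lift C f (v ∘ e.symm) fun i => hv _
    refine ⟨g, hg, fun i => ?_⟩
    rw [Function.comp_apply, hgu, Function.comp_apply, e.symm_apply_apply]

end Pool.Agent.W5h77.MR
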